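import Mathlib

/-!
# A group with finite double centralizers which is not sigma-discrete in its semi-Zariski topology

Let `F = 𝔽₂`, `B` the space of finitely supported sequences over `F` and `A = Hom(B, F)` its dual.  The
group is the Heisenberg group `A × B × F` with
`(α, b, z) (α', b', z') = (α + α', b + b', z + z' + α b')`.
Its commutator form is nondegenerate, so double centralizers of finite sets are finite.  The
semi-Zariski topology induces on the uncountable set `{(α, 0, 0)}` a topology which is coarser than the
topology of pointwise convergence; the latter has a countable base, so all discrete subspaces are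
countable.
-/

set_option autoImplicit false

open Topology

namespace Pool.Agent.Results.MP_9d0418_gt.HeisenbergGroup

noncomputable section

/-! ### Definitions used in the statement -/

/-- A semigroup has finite double centralizers if `Cent(Cent(F))` is finite for each finite `F`. -/
def HasFiniteDoubleCentralizers (S : Type*) [Semigroup S] : Prop :=
  ∀ F : Set S, F.Finite → (Set.centralizer (Set.centralizer F)).Finite

/-- The semi-Zariski topology of a semigroup `S`; `WithOne S` is `S` with an adjoined external
identity. -/
@[instance_reducible]
def semiZariski (S : Type*) [Semigroup S] : TopologicalSpace S :=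
  TopologicalSpace.generateFrom
    ({U | ∃ a b c : WithOne S, U = {x : S | a * (x : WithOne S) * b ≠ c}} ∪
      {U | ∃ a b c d : WithOne S, U = {x : S | a * (x : WithOne S) * b ≠ c * (x : WithOne S) * d}})

/-- A topological space is sigma-discrete if it is a countable union of subspaces, each of them
discrete in its induced topology. -/
def IsSigmaDiscrete {S : Type*} (t : TopologicalSpace S) : Prop :=
  ∃ D : ℕ → Set S, (⋃ n, D n) = Set.univ ∧
    ∀ n, ∀ x ∈ D n, ∃ U : Set S, IsOpen[t] U ∧ U ∩ D n = {x}

/-! ### The group -/

/-- finitely supported sequences over `𝔽₂` -/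
abbrev B := ℕ →₀ ZMod 2

/-- the dual space -/
abbrev A := Module.Dual (ZMod 2) B

/-- The Heisenberg group `A × B × 𝔽₂`. -/
@[ext]
structure Heis where
  a : A
  b : B
  z : ZMod 2

namespace Heis

instance : Mul Heis := ⟨fun g h => ⟨g.a + h.a, g.b + h.b, g.z + h.z + g.a h.b⟩⟩
instance : One Heis := ⟨⟨0, 0, 0⟩⟩
instance : Inv Heis := ⟨fun g => ⟨-g.a, -g.b, -g.z + g.a g.b⟩⟩

lemma mul_a (g h : Heis) : (g * h).a = g.a + h.a := rfl
lemma mul_b (g h : Heis) : (g * h).b = g.b + h.b := rfl
lemma mul_z (g h : Heis) : (g * h).z = g.z + h.z + g.a h.b := rfl
lemma one_a : (1 : Heis).a = 0 := rfl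
lemma one_b : (1 : Heis).b = 0 := rfl
lemma one_z : (1 : Heis).z = 0 := rfl
lemma inv_a (g : Heis) : (g⁻¹).a = -g.a := rfl
lemma inv_b (g : Heis) : (g⁻¹).b = -g.b := rfl
lemma inv_z (g : Heis) : (g⁻¹).z = -g.z + g.a g.b := rfl

instance : Group Heis := Group.ofLeftAxioms
  (by
    intro x y z
    apply Heis.ext
    · rw [mul_a, mul_a, mul_a, mul_a, add_assoc]
    · rw [mul_b, mul_b, mul_b, mul_b, add_assoc]
    · rw [mul_z, mul_z, mul_z, mul_z, mul_a, mul_b, LinearMap.add_apply, map_add]; ring)
  (by
    intro x
    apply Heis.ext
    · rw [mul_a, one_a, zero_add]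
    · rw [mul_b, one_b, zero_add]
    · rw [mul_z, one_z, one_a, LinearMap.zero_apply, zero_add, add_zero])
  (by
    intro x
    apply Heis.ext
    · rw [mul_a, one_a, inv_a, neg_add_cancel]
    · rw [mul_b, one_b, inv_b, neg_add_cancel]
    · rw [mul_z, one_z, inv_z, inv_a, LinearMap.neg_apply]; ring)

lemma comm_iff (g h : Heis) : g * h = h * g ↔ g.a h.b = h.a g.b := by
  constructor
  · intro e
    have := congrArg Heis.z e
    rw [mul_z, mul_z, add_comm h.z] at this
    exact add_left_cancel this
  · intro e
    apply Heis.ext
    · rw [mul_a, mul_a, add_comm]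
    · rw [mul_b, mul_b, add_comm]
    · rw [mul_z, mul_z, e, add_comm h.z]

/-- commutator form of a vector -/
def form (v : A × B) : (A × B) →ₗ[ZMod 2] ZMod 2 :=
  v.1 ∘ₗ LinearMap.snd _ _ _ - (LinearMap.applyₗ v.2) ∘ₗ LinearMap.fst _ _ _

lemma form_apply (v w : A × B) : form v w = v.1 w.2 - w.1 v.2 := by
  simp [form]

/-- the form is linear in the first variable -/
def formL : (A × B) →ₗ[ZMod 2] ((A × B) →ₗ[ZMod 2] ZMod 2) where
  toFun := form
  map_add' v w := by
    apply LinearMap.ext
    intro u
    rw [LinearMap.add_apply, form_apply, form_apply, form_apply, Prod.fst_add, Prod.snd_add,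
      LinearMap.add_apply, map_add]
    ring
  map_smul' c v := by
    apply LinearMap.ext
    intro u
    rw [LinearMap.smul_apply, form_apply, form_apply, Prod.smul_fst, Prod.smul_snd,
      LinearMap.smul_apply, map_smul, RingHom.id_apply, smul_sub]

lemma formL_apply (v w : A × B) : formL v w = v.1 w.2 - w.1 v.2 := form_apply v w

lemma formL_injective : Function.Injective formL := by
  intro v w h
  apply Prod.ext
  · apply LinearMap.ext
    intro b
    have := LinearMap.congr_fun h (0, b)
    simpa [formL_apply] using this
  · apply Finsupp.ext
    intro i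
    have := LinearMap.congr_fun h (Finsupp.lapply i, 0)
    simpa [formL_apply] using this

lemma finite_double : HasFiniteDoubleCentralizers Heis := by
  intro F hF
  have hfin := hF.to_subtype
  let v : F → A × B := fun f => (f.1.a, f.1.b)
  -- the span of finitely many vectors over a finite field is finite
  have hspan : (Submodule.span (ZMod 2) (Set.range v) : Set (A × B)).Finite := by
    have : Module.Finite (ZMod 2) (Submodule.span (ZMod 2) (Set.range v)) :=
      Module.Finite.span_of_finite _ (Set.finite_range v)
    exact Module.finite_of_finite (ZMod 2)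
  -- the projections of the double centralizer lie in the span
  have hsub : Set.centralizer (Set.centralizer F) ⊆
      ⋃ z : ZMod 2, (fun u : A × B => (⟨u.1, u.2, z⟩ : Heis)) '' (Submodule.span (ZMod 2)
        (Set.range v) : Set (A × B)) := by
    intro g hg
    have hmem : formL (g.a, g.b) ∈ Submodule.span (ZMod 2) (Set.range fun f => formL (v f)) := by
      apply mem_span_of_iInf_ker_le_ker
      intro w hw
      rw [Submodule.mem_iInf] at hw
      have hcent : (⟨w.1, w.2, 0⟩ : Heis) ∈ Set.centralizer F := by
        intro f hf
        have := hw ⟨f, hf⟩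
        rw [LinearMap.mem_ker, formL_apply] at this
        rw [comm_iff]
        exact sub_eq_zero.mp this
      have := hg _ hcent
      rw [comm_iff] at this
      rw [LinearMap.mem_ker, formL_apply]
      exact sub_eq_zero.mpr this.symm
    have hmem' : (g.a, g.b) ∈ Submodule.span (ZMod 2) (Set.range v) := by
      have : (Set.range fun f => formL (v f)) = formL '' (Set.range v) := by
        rw [← Set.range_comp]; rfl
      rw [this, Submodule.span_image, Submodule.mem_map] at hmem
      obtain ⟨y, hy, hy'⟩ := hmem
      rwa [formL_injective hy'] at hy
    exact Set.mem_iUnion.mpr ⟨g.z, (g.a, g.b), hmem', rfl⟩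
  exact (Set.finite_iUnion fun z => hspan.image _).subset hsub

/-! ### The semi-Zariski topology on the set of all `(α, 0, 0)` -/

/-- the elements `(α, 0, 0)` -/
def j (α : A) : Heis := ⟨α, 0, 0⟩

lemma j_injective : Function.Injective j := fun _ _ h => congrArg Heis.a h

/-- topology of pointwise convergence on `A` -/
@[instance_reducible]
def ptTop : TopologicalSpace A := TopologicalSpace.induced (fun α : A => (α : B → ZMod 2)) inferInstance

lemma ptTop_secondCountable : @SecondCountableTopology A ptTop := by
  let _ : TopologicalSpace A := ptTop
  have : Countable B := inferInstance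
  exact TopologicalSpace.secondCountableTopology_induced A (B → ZMod 2) _

lemma continuous_eval (b : B) : @Continuous A (ZMod 2) ptTop _ (fun α => α b) := by
  let _ : TopologicalSpace A := ptTop
  have h1 : Continuous (fun α : A => (α : B → ZMod 2)) := continuous_induced_dom
  exact (continuous_apply b).comp h1

/-- the identification of elements of `Heis ∪ {1}` with elements of `Heis`, as multipliers -/
def r : WithOne Heis →* Heis := WithOne.lift (MulHom.id Heis)

lemma r_coe (x : Heis) : r (x : WithOne Heis) = x := by simp [r]

lemma coe_mul_coe (a b : WithOne Heis) (x : Heis) :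
    a * (x : WithOne Heis) * b = ((r a * x * r b : Heis) : WithOne Heis) := by
  refine WithOne.cases_on a ?_ fun a => ?_
  · refine WithOne.cases_on b ?_ fun b => ?_
    · simp
    · simp [r_coe]
  · refine WithOne.cases_on b ?_ fun b => ?_
    · simp [r_coe]
    · simp [r_coe]

/-- a condition on two values defines a closed set -/
lemma isClosed_pred (b b' : B) (P : ZMod 2 × ZMod 2 → Prop) :
    @IsClosed A ptTop {α : A | P (α b, α b')} := by
  let _ : TopologicalSpace A := ptTop
  have h : Continuous (fun α : A => (α b, α b')) := (continuous_eval b).prodMk (continuous_eval b')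
  exact (isClosed_discrete {x | P x}).preimage h

lemma prod_eq (g h : Heis) (α : A) :
    g * j α * h = ⟨g.a + α + h.a, g.b + h.b, g.z + h.z + g.a h.b + α h.b⟩ := by
  apply Heis.ext
  · rfl
  · show g.b + 0 + h.b = g.b + h.b
    rw [add_zero]
  · show g.z + 0 + g.a 0 + h.z + (g.a + α) h.b = g.z + h.z + g.a h.b + α h.b
    rw [map_zero, LinearMap.add_apply]; ring

lemma isClosed_eq_const (g h k : Heis) :
    @IsClosed A ptTop {α : A | g * j α * h = k} := by
  let _ : TopologicalSpace A := ptTop
  have hT : ∀ β : A, IsClosed {α : A | α = β} := by
    intro β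
    have : {α : A | α = β} = ⋂ b : B, {α : A | α b = β b} := by
      ext α
      constructor
      · intro h
        rw [Set.mem_iInter]
        intro b
        show α b = β b
        rw [show α = β from h]
      · intro h
        rw [Set.mem_iInter] at h
        exact LinearMap.ext h
    rw [this]
    exact isClosed_iInter fun b => isClosed_eq (continuous_eval b) continuous_const
  by_cases hb : g.b + h.b = k.b
  · have : {α : A | g * j α * h = k} =
        {α : A | α = k.a - g.a - h.a} ∩ {α : A | g.z + h.z + g.a h.b + α h.b = k.z} := by
      ext α
      constructor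
      · intro e
        have e' : g * j α * h = k := e
        rw [prod_eq] at e'
        refine ⟨?_, congrArg Heis.z e'⟩
        have := congrArg Heis.a e'
        show α = k.a - g.a - h.a
        rw [← this]
        show α = g.a + α + h.a - g.a - h.a
        abel
      · rintro ⟨e1, e2⟩
        show g * j α * h = k
        rw [prod_eq]
        apply Heis.ext
        · show g.a + α + h.a = k.a
          rw [show α = k.a - g.a - h.a from e1]
          abel
        · exact hb
        · exact e2
    rw [this]
    exact (hT _).inter (isClosed_pred h.b h.b fun p => g.z + h.z + g.a h.b + p.1 = k.z)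
  · have : {α : A | g * j α * h = k} = ∅ := by
      ext α
      constructor
      · intro e
        have e' : g * j α * h = k := e
        rw [prod_eq] at e'
        exact hb (congrArg Heis.b e')
      · intro e
        exact e.elim
    rw [this]
    exact isClosed_empty

lemma isClosed_eq_prod (g h k l : Heis) :
    @IsClosed A ptTop {α : A | g * j α * h = k * j α * l} := by
  let _ : TopologicalSpace A := ptTop
  by_cases hb : g.b + h.b = k.b + l.b ∧ g.a + h.a = k.a + l.a
  · have : {α : A | g * j α * h = k * j α * l} =
        {α : A | g.z + h.z + g.a h.b + α h.b = k.z + l.z + k.a l.b + α l.b} := by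
      ext α
      constructor
      · intro e
        have e' : g * j α * h = k * j α * l := e
        rw [prod_eq, prod_eq] at e'
        exact congrArg Heis.z e'
      · intro e
        show g * j α * h = k * j α * l
        rw [prod_eq, prod_eq]
        apply Heis.ext
        · show g.a + α + h.a = k.a + α + l.a
          rw [add_right_comm, hb.2, add_right_comm]
        · exact hb.1
        · exact e
    rw [this]
    exact isClosed_pred h.b l.b fun p => g.z + h.z + g.a h.b + p.1 = k.z + l.z + k.a l.b + p.2
  · have : {α : A | g * j α * h = k * j α * l} = ∅ := by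
      ext α
      constructor
      · intro e
        have e' : g * j α * h = k * j α * l := e
        rw [prod_eq, prod_eq] at e'
        refine hb ⟨congrArg Heis.b e', ?_⟩
        have := congrArg Heis.a e'
        have h2 : g.a + α + h.a = k.a + α + l.a := this
        rw [add_right_comm, add_right_comm k.a] at h2
        exact add_right_cancel h2
      · intro e
        exact e.elim
    rw [this]
    exact isClosed_empty

lemma continuous_j : @Continuous A Heis ptTop (semiZariski Heis) j := by
  let _ : TopologicalSpace A := ptTop
  apply continuous_generateFrom_iff.mpr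
  rintro U (⟨a, b, c, rfl⟩ | ⟨a, b, c, d, rfl⟩)
  · have : j ⁻¹' {x : Heis | a * (x : WithOne Heis) * b ≠ c} =
        {α : A | ((r a * j α * r b : Heis) : WithOne Heis) = c}ᶜ := by
      ext α
      show a * (j α : WithOne Heis) * b ≠ c ↔ _
      rw [coe_mul_coe]
      rfl
    rw [this, isOpen_compl_iff]
    refine WithOne.cases_on c ?_ fun c => ?_
    · have : {α : A | ((r a * j α * r b : Heis) : WithOne Heis) = 1} = ∅ := by
        ext α
        constructor
        · intro e
          exact WithOne.coe_ne_one e
        · intro e
          exact e.elim
      rw [this]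
      exact isClosed_empty
    · have : {α : A | ((r a * j α * r b : Heis) : WithOne Heis) = c} =
          {α : A | r a * j α * r b = c} := by
        ext α
        exact WithOne.coe_inj
      rw [this]
      exact isClosed_eq_const _ _ _
  · have : j ⁻¹' {x : Heis | a * (x : WithOne Heis) * b ≠ c * (x : WithOne Heis) * d} =
        {α : A | r a * j α * r b = r c * j α * r d}ᶜ := by
      ext α
      show a * (j α : WithOne Heis) * b ≠ c * (j α : WithOne Heis) * d ↔ _
      rw [coe_mul_coe, coe_mul_coe, Ne, WithOne.coe_inj]
      rfl
    rw [this, isOpen_compl_iff]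
    exact isClosed_eq_prod _ _ _ _

lemma uncountable_A : Uncountable A := by
  have e : (ℕ → ZMod 2) ≃ A := (Finsupp.lift (ZMod 2) (ZMod 2) ℕ).toEquiv.trans (Equiv.refl _)
  have h : Uncountable (ℕ → ZMod 2) := by
    rw [← Cardinal.aleph0_lt_mk_iff, ← Cardinal.power_def]
    have : Cardinal.mk (ZMod 2) = 2 := by simp [ZMod.card]
    rw [this]
    exact (Cardinal.cantor _).trans_le' (by simp)
  exact e.uncountable_iff.mp h

lemma not_sigmaDiscrete : ¬ IsSigmaDiscrete (semiZariski Heis) := by
  rintro ⟨D, hD, hdisc⟩
  let _ : TopologicalSpace A := ptTop
  let _ : TopologicalSpace Heis := semiZariski Heis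
  have hcj : Continuous j := continuous_j
  have hsc : SecondCountableTopology A := ptTop_secondCountable
  have hc : ∀ n, (j ⁻¹' (D n)).Countable := by
    intro n
    have hd : DiscreteTopology (j ⁻¹' (D n)) := by
      rw [discreteTopology_subtype_iff']
      intro α hα
      obtain ⟨U, hU, hUD⟩ := hdisc n (j α) hα
      refine ⟨j ⁻¹' U, hcj.isOpen_preimage U hU, ?_⟩
      rw [← Set.preimage_inter, hUD]
      ext β
      constructor
      · intro h
        exact j_injective h
      · intro h
        rw [show β = α from h]
        rfl
    have : Countable (j ⁻¹' (D n)) := by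
      exact TopologicalSpace.separableSpace_iff_countable.mp inferInstance
    exact Set.countable_coe_iff.mp this
  have huniv : (Set.univ : Set A).Countable := by
    have : (Set.univ : Set A) = ⋃ n, j ⁻¹' (D n) := by
      rw [← Set.preimage_iUnion, hD, Set.preimage_univ]
    rw [this]
    exact Set.countable_iUnion hc
  have := uncountable_A
  exact Set.not_countable_univ huniv

end Heis

/-- **Q2, negative answer** (and hence Q1, negative answer): there is a group with finite double
centralizers which is not sigma-discrete in its semi-Zariski topology. -/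
theorem result : ∃ (G : Type) (_ : Group G),
    HasFiniteDoubleCentralizers G ∧ ¬ IsSigmaDiscrete (semiZariski G) :=
  ⟨Heis, inferInstance, Heis.finite_double, Heis.not_sigmaDiscrete⟩

end

end Pool.Agent.Results.MP_9d0418_gt.HeisenbergGroup
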